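import Pool.Agent.W809.CI.Stm

/-!
CI-CC: continuity, equivariance and Lipschitz bounds of the colour function.
-/

set_option autoImplicit false

open Set Filter Topology

namespace Pool.Agent.W397.CI

open Pool.Agent.W809.CI

theorem j_spec (x : Pt) : x.1.2.1 = Pi.single x.j x.1.1 := x.2.2.choose_spec

theorem bk_zero (r : ℝ) (j : ℤ) :
    ((-1 : ℝ) ^ j) • Bk 0 (r - j) = (Complex.exp ((Real.pi * r : ℝ) * Complex.I), 0) := by
  have h1 : Bk 0 (r - j) = (Complex.exp ((Real.pi * (r - j) : ℝ) * Complex.I), 0) := by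
    unfold Bk Ev
    simp
  have h2 : Complex.exp ((Real.pi * (r - j) : ℝ) * Complex.I) =
      Complex.exp ((Real.pi * r : ℝ) * Complex.I) / (-1) ^ j := by
    rw [← Complex.exp_pi_mul_I, ← Complex.exp_int_mul, ← Complex.exp_sub]
    congr 1
    push_cast
    ring
  have h3 : ((-1 : ℂ) ^ j) ≠ 0 := zpow_ne_zero _ (by norm_num)
  rw [h1, h2, Prod.smul_mk, smul_zero]
  congr 1
  rw [Complex.real_smul]
  push_cast
  field_simp

theorem cc_page (x : Pt) (j : ℤ) (hj : x.1.2.1 = Pi.single j x.1.1) :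
    Cc x = ((-1 : ℝ) ^ j) • Bk x.s (x.r - j) := by
  by_cases h0 : x.1.1 = 0
  · unfold Cc
    have h1 : x.s = 0 := h0
    rw [h1, bk_zero, bk_zero]
  · have h1 : j = x.j := by
      by_contra hne
      have h2 := congrFun (hj.symm.trans (j_spec x)) j
      rw [Pi.single_eq_same, Pi.single_eq_of_ne hne] at h2
      exact h0 h2
    rw [h1]
    rfl

theorem norm_sgn (j : ℤ) (z : ℂ × ℂ) : ‖((-1 : ℝ) ^ j) • z‖ = ‖z‖ := by
  rw [norm_smul, norm_zpow, norm_neg, norm_one, one_zpow, one_mul]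

theorem diff (hB : S_BK) (x y : Pt) (j : ℤ) (hx : x.1.2.1 = Pi.single j x.1.1)
    (hy : y.1.2.1 = Pi.single j y.1.1) :
    ‖Cc x - Cc y‖ ≤ |x.1.1 - y.1.1| + Real.pi * Real.exp (1 - x.1.1) * |x.1.2.2 - y.1.2.2| := by
  rw [cc_page x j hx, cc_page y j hy, ← smul_sub, norm_sgn]
  have h1 := hB.1 x.s y.s (y.r - j) x.2.1 y.2.1
  have h2 := hB.2.1 x.s (x.r - j) (y.r - j) x.2.1
  have h3 : x.r - (j : ℝ) - (y.r - j) = x.r - y.r := by ring
  rw [h3] at h2
  calc ‖Bk x.s (x.r - j) - Bk y.s (y.r - j)‖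
      = ‖(Bk x.s (x.r - j) - Bk x.s (y.r - j)) + (Bk x.s (y.r - j) - Bk y.s (y.r - j))‖ := by
        congr 1; abel
    _ ≤ ‖Bk x.s (x.r - j) - Bk x.s (y.r - j)‖ + ‖Bk x.s (y.r - j) - Bk y.s (y.r - j)‖ :=
        norm_add_le _ _
    _ ≤ Real.pi * Real.exp (1 - x.s) * |x.r - y.r| + |x.s - y.s| := add_le_add h2 h1
    _ = |x.1.1 - y.1.1| + Real.pi * Real.exp (1 - x.1.1) * |x.1.2.2 - y.1.2.2| := by
        rw [add_comm]; rfl

theorem cont (hB : S_BK) : Continuous Cc := by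
  rw [continuous_iff_continuousAt]
  intro x0
  have hval : Continuous (fun x : Pt => x.1) := continuous_subtype_val
  have hg : Continuous (fun x : Pt => |x.1.1 - x0.1.1| +
      Real.pi * Real.exp (1 - 0) * |x.1.2.2 - x0.1.2.2|) := by
    have c1 : Continuous (fun x : Pt => x.1.1) := hval.fst
    have c2 : Continuous (fun x : Pt => x.1.2.2) := hval.snd.snd
    fun_prop
  have key : ∀ᶠ x in 𝓝 x0, ∃ j : ℤ, x.1.2.1 = Pi.single j x.1.1 ∧
      x0.1.2.1 = Pi.single j x0.1.1 := by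
    by_cases h0 : x0.1.1 = 0
    · refine Eventually.of_forall fun x => ⟨x.j, j_spec x, ?_⟩
      rw [j_spec x0, h0, Pi.single_zero, Pi.single_zero]
    · have hpos : 0 < x0.1.1 := lt_of_le_of_ne x0.2.1 (Ne.symm h0)
      have c3 : Continuous (fun x : Pt => x.1.2.1 x0.j) := (continuous_apply x0.j).comp hval.snd.fst
      have h1 : 0 < x0.1.2.1 x0.j := by
        rw [j_spec x0, Pi.single_eq_same]
        exact hpos
      have h2 : ∀ᶠ x in 𝓝 x0, 0 < x.1.2.1 x0.j := c3.continuousAt.eventually (lt_mem_nhds h1)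
      filter_upwards [h2] with x hx
      refine ⟨x0.j, ?_, j_spec x0⟩
      have h3 : x0.j = x.j := by
        by_contra hne
        rw [j_spec x, Pi.single_eq_of_ne hne] at hx
        exact lt_irrefl 0 hx
      rw [h3]
      exact j_spec x
  rw [ContinuousAt, tendsto_iff_norm_sub_tendsto_zero]
  have h4 := hg.tendsto x0
  simp only [sub_self, abs_zero, mul_zero, add_zero] at h4
  refine squeeze_zero' (Eventually.of_forall fun x => norm_nonneg _) ?_ h4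
  filter_upwards [key] with x hx
  obtain ⟨j, hj, hj0⟩ := hx
  refine (diff hB x x0 j hj hj0).trans ?_
  refine add_le_add le_rfl (mul_le_mul_of_nonneg_right ?_ (abs_nonneg _))
  refine mul_le_mul_of_nonneg_left ?_ Real.pi_pos.le
  apply Real.exp_le_exp.2
  linarith [x.2.1]

theorem equi (m : ℤ) (x : Pt) : Cc (beta m x) = ((-1 : ℝ) ^ m) • Cc x := by
  have h1 : (beta m x).1.2.1 = Pi.single (x.j + m) (beta m x).1.1 := by
    funext k
    show x.1.2.1 (k - m) = (Pi.single (x.j + m) x.1.1 : ℤ → ℝ) k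
    rw [j_spec x, Pi.single_apply, Pi.single_apply]
    congr 1
    exact propext ⟨fun h => by omega, fun h => by omega⟩
  rw [cc_page _ _ h1, cc_page x x.j (j_spec x), smul_smul, ← zpow_add₀ (by norm_num), add_comm]
  have h2 : (beta m x).s = x.s := rfl
  have h3 : (beta m x).r = x.r + m := rfl
  rw [h2, h3]
  congr 2
  push_cast
  ring

/-- the same point -/
theorem rho_eq (x : Pt) {θ θ' : ℝ} (ha : ca θ = ca θ') (hb : cb θ = cb θ') (hc : cc θ = cc θ') :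
    rho θ x = rho θ' x := by
  apply Subtype.ext
  show (ca θ * x.1.1 + cb θ * Dp x.1.2.2,
    (fun k => ca θ * x.1.2.1 k + (Pi.single (0 : ℤ) (cb θ * Dp x.1.2.2) : ℤ → ℝ) k),
      cc θ * x.1.2.2) = (ca θ' * x.1.1 + cb θ' * Dp x.1.2.2,
    (fun k => ca θ' * x.1.2.1 k + (Pi.single (0 : ℤ) (cb θ' * Dp x.1.2.2) : ℤ → ℝ) k),
      cc θ' * x.1.2.2)
  rw [ha, hb, hc]

theorem page_a (x : Pt) {θ : ℝ} (h : cb θ = 0) :
    (rho θ x).1.2.1 = Pi.single x.j (rho θ x).1.1 := by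
  funext k
  show ca θ * x.1.2.1 k + (Pi.single (0 : ℤ) (cb θ * Dp x.1.2.2) : ℤ → ℝ) k =
    (Pi.single x.j (ca θ * x.1.1 + cb θ * Dp x.1.2.2) : ℤ → ℝ) k
  rw [h, zero_mul, Pi.single_zero, add_zero, j_spec x]
  simp [Pi.single_apply]

theorem page_b (x : Pt) {θ : ℝ} (h : ca θ = 0) :
    (rho θ x).1.2.1 = Pi.single 0 (rho θ x).1.1 := by
  funext k
  show ca θ * x.1.2.1 k + (Pi.single (0 : ℤ) (cb θ * Dp x.1.2.2) : ℤ → ℝ) k =
    (Pi.single 0 (ca θ * x.1.1 + cb θ * Dp x.1.2.2) : ℤ → ℝ) k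
  rw [h, zero_mul, zero_add, zero_mul, zero_add]

theorem diff_rho (hB : S_BK) (x : Pt) {θ θ' : ℝ}
    (h : (cb θ = 0 ∧ cb θ' = 0) ∨ (ca θ = 0 ∧ ca θ' = 0)) :
    ‖Cc (rho θ x) - Cc (rho θ' x)‖ ≤
      |(ca θ * x.s + cb θ * Dp x.r) - (ca θ' * x.s + cb θ' * Dp x.r)| +
        Real.pi * Real.exp (1 - (ca θ * x.s + cb θ * Dp x.r)) * |cc θ * x.r - cc θ' * x.r| := by
  rcases h with ⟨h1, h2⟩ | ⟨h1, h2⟩
  · exact diff hB _ _ x.j (page_a x h1) (page_a x h2)
  · exact diff hB _ _ 0 (page_b x h1) (page_b x h2)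

/-- Lipschitz on a set -/
def LP (h : ℝ → ℂ × ℂ) (K : ℝ) (S : Set ℝ) : Prop :=
  ∀ θ ∈ S, ∀ θ' ∈ S, θ ≤ θ' → ‖h θ - h θ'‖ ≤ K * (θ' - θ)

theorem LP.glue {h : ℝ → ℂ × ℂ} {K a b : ℝ} (hab : a ≤ b) (h1 : LP h K (Iic a))
    (h2 : LP h K (Icc a b)) : LP h K (Iic b) := by
  intro θ hθ θ' hθ' hle
  rcases le_total θ' a with h3 | h3
  · exact h1 θ (hle.trans h3) θ' h3 hle
  · rcases le_total a θ with h4 | h4
    · exact h2 θ ⟨h4, hθ⟩ θ' ⟨h3, hθ'⟩ hle
    · have h5 := h1 θ h4 a (mem_Iic.2 le_rfl) h4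
      have h6 := h2 a ⟨le_rfl, hab⟩ θ' ⟨h3, hθ'⟩ h3
      calc ‖h θ - h θ'‖ = ‖(h θ - h a) + (h a - h θ')‖ := by congr 1; abel
        _ ≤ ‖h θ - h a‖ + ‖h a - h θ'‖ := norm_add_le _ _
        _ ≤ K * (a - θ) + K * (θ' - a) := add_le_add h5 h6
        _ = K * (θ' - θ) := by ring

theorem LP.glue' {h : ℝ → ℂ × ℂ} {K a : ℝ} (h1 : LP h K (Iic a))
    (h2 : LP h K (Ici a)) : LP h K univ := by
  intro θ _ θ' _ hle
  rcases le_total θ' a with h3 | h3
  · exact h1 θ (hle.trans h3) θ' h3 hle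
  · rcases le_total a θ with h4 | h4
    · exact h2 θ h4 θ' h3 hle
    · have h5 := h1 θ h4 a (mem_Iic.2 le_rfl) h4
      have h6 := h2 a (mem_Ici.2 le_rfl) θ' h3 h3
      calc ‖h θ - h θ'‖ = ‖(h θ - h a) + (h a - h θ')‖ := by congr 1; abel
        _ ≤ ‖h θ - h a‖ + ‖h a - h θ'‖ := norm_add_le _ _
        _ ≤ K * (a - θ) + K * (θ' - a) := add_le_add h5 h6
        _ = K * (θ' - θ) := by ring

/-! ### values of the three functions -/

theorem ca1 {θ : ℝ} (h : θ ≤ 0) : ca θ = 1 := by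
  unfold ca; rw [min_eq_left (by linarith), max_eq_right (by norm_num)]
theorem ca2 {θ : ℝ} (h : 0 ≤ θ) (h' : θ ≤ 1 / 4) : ca θ = 1 - 4 * θ := by
  unfold ca; rw [min_eq_right (by linarith), max_eq_right (by linarith)]
theorem ca3 {θ : ℝ} (h : 1 / 4 ≤ θ) : ca θ = 0 := by
  unfold ca; rw [min_eq_right (by linarith), max_eq_left (by linarith)]
theorem cb1 {θ : ℝ} (h : θ ≤ 1 / 4) : cb θ = 0 := by
  unfold cb; exact max_eq_left ((min_le_left _ _).trans (by linarith))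
theorem cb2 {θ : ℝ} (h : 1 / 4 ≤ θ) (h' : θ ≤ 1 / 2) : cb θ = 4 * θ - 1 := by
  unfold cb
  rw [min_eq_left (a := (1 : ℝ)) (by linarith), min_eq_left (by linarith),
    max_eq_right (by linarith)]
theorem cb3 {θ : ℝ} (h : 1 / 2 ≤ θ) (h' : θ ≤ 3 / 4) : cb θ = 1 := by
  unfold cb
  rw [min_eq_left (a := (1 : ℝ)) (by linarith), min_eq_right (by linarith),
    max_eq_right (by norm_num)]
theorem cb4 {θ : ℝ} (h : 3 / 4 ≤ θ) (h' : θ ≤ 1) : cb θ = 4 - 4 * θ := by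
  unfold cb
  rw [min_eq_right (a := (1 : ℝ)) (by linarith), min_eq_right (by linarith),
    max_eq_right (by linarith)]
theorem cb5 {θ : ℝ} (h : 1 ≤ θ) : cb θ = 0 := by
  unfold cb
  exact max_eq_left (((min_le_right _ _).trans (min_le_right _ _)).trans (by linarith))
theorem cc1 {θ : ℝ} (h : θ ≤ 1 / 2) : cc θ = 1 := by
  unfold cc; rw [min_eq_left (by linarith), max_eq_right (by norm_num)]
theorem cc2 {θ : ℝ} (h : 1 / 2 ≤ θ) (h' : θ ≤ 3 / 4) : cc θ = 3 - 4 * θ := by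
  unfold cc; rw [min_eq_right (by linarith), max_eq_right (by linarith)]
theorem cc3 {θ : ℝ} (h : 3 / 4 ≤ θ) : cc θ = 0 := by
  unfold cc; rw [min_eq_right (by linarith), max_eq_left (by linarith)]

theorem pi_e : Real.pi * Real.exp 1 ≤ 9 := by
  have h1 := Real.exp_one_lt_d9
  have h2 := Real.pi_lt_d2
  have h3 := Real.pi_pos
  have h4 := Real.exp_pos 1
  calc Real.pi * Real.exp 1 ≤ 3.15 * 2.7182818286 :=
        mul_le_mul h2.le h1.le h4.le (by norm_num)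
    _ ≤ 9 := by norm_num

theorem lips (hB : S_BK) (x : Pt) :
    LP (fun θ => Cc (rho θ x)) (4 * (x.s + Dp x.r + 9)) univ := by
  have hs : 0 ≤ x.s := x.2.1
  have hD : 0 ≤ Dp x.r := Dp_nonneg _
  have i0 : LP (fun θ => Cc (rho θ x)) (4 * (x.s + Dp x.r + 9)) (Iic 0) := by
    intro θ hθ θ' hθ' hle
    have h1 : rho θ x = rho θ' x := rho_eq x (by rw [ca1 hθ, ca1 hθ'])
      (by rw [cb1 (le_trans hθ (by norm_num)), cb1 (le_trans hθ' (by norm_num))])
      (by rw [cc1 (le_trans hθ (by norm_num)), cc1 (le_trans hθ' (by norm_num))])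
    simp only [h1, sub_self, norm_zero]
    exact mul_nonneg (by positivity) (by linarith)
  have i1 : LP (fun θ => Cc (rho θ x)) (4 * (x.s + Dp x.r + 9)) (Icc 0 (1 / 4)) := by
    intro θ hθ θ' hθ' hle
    refine (diff_rho hB x (Or.inl ⟨cb1 hθ.2, cb1 hθ'.2⟩)).trans ?_
    rw [ca2 hθ.1 hθ.2, ca2 hθ'.1 hθ'.2, cb1 hθ.2, cb1 hθ'.2,
      cc1 (le_trans hθ.2 (by norm_num)), cc1 (le_trans hθ'.2 (by norm_num)), sub_self, abs_zero,
      mul_zero, add_zero]
    have h1 : (1 - 4 * θ) * x.s + 0 * Dp x.r - ((1 - 4 * θ') * x.s + 0 * Dp x.r) =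
        4 * x.s * (θ' - θ) := by ring
    rw [h1, abs_of_nonneg (mul_nonneg (by positivity) (by linarith))]
    exact mul_le_mul_of_nonneg_right (by linarith) (by linarith)
  have i2 : LP (fun θ => Cc (rho θ x)) (4 * (x.s + Dp x.r + 9)) (Icc (1 / 4) (1 / 2)) := by
    intro θ hθ θ' hθ' hle
    refine (diff_rho hB x (Or.inr ⟨ca3 hθ.1, ca3 hθ'.1⟩)).trans ?_
    rw [ca3 hθ.1, ca3 hθ'.1, cb2 hθ.1 hθ.2, cb2 hθ'.1 hθ'.2, cc1 hθ.2, cc1 hθ'.2, sub_self,
      abs_zero, mul_zero, add_zero]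
    have h1 : 0 * x.s + (4 * θ - 1) * Dp x.r - (0 * x.s + (4 * θ' - 1) * Dp x.r) =
        -(4 * Dp x.r * (θ' - θ)) := by ring
    rw [h1, abs_neg, abs_of_nonneg (mul_nonneg (by positivity) (by linarith))]
    exact mul_le_mul_of_nonneg_right (by linarith) (by linarith)
  have i3 : LP (fun θ => Cc (rho θ x)) (4 * (x.s + Dp x.r + 9)) (Icc (1 / 2) (3 / 4)) := by
    intro θ hθ θ' hθ' hle
    have a1 : 1 / 4 ≤ θ := le_trans (by norm_num) hθ.1
    have a2 : 1 / 4 ≤ θ' := le_trans (by norm_num) hθ'.1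
    refine (diff_rho hB x (Or.inr ⟨ca3 a1, ca3 a2⟩)).trans ?_
    rw [ca3 a1, ca3 a2, cb3 hθ.1 hθ.2, cb3 hθ'.1 hθ'.2, cc2 hθ.1 hθ.2, cc2 hθ'.1 hθ'.2, sub_self,
      abs_zero, zero_add, zero_mul, zero_add, one_mul]
    have h1 : (3 - 4 * θ) * x.r - (3 - 4 * θ') * x.r = 4 * (θ' - θ) * x.r := by ring
    rw [h1, abs_mul, abs_of_nonneg (mul_nonneg (by norm_num) (by linarith) :
      (0 : ℝ) ≤ 4 * (θ' - θ)), Real.exp_sub]
    have h2 : Real.exp (Dp x.r) = 1 + |x.r| := by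
      unfold Dp
      rw [Real.exp_log (by positivity)]
    rw [h2]
    have h3 : |x.r| / (1 + |x.r|) ≤ 1 := by
      rw [div_le_one (by positivity)]
      linarith [abs_nonneg x.r]
    have h4 : 0 ≤ |x.r| / (1 + |x.r|) := by positivity
    have h5 : 0 ≤ Real.pi * Real.exp 1 := by positivity
    calc Real.pi * (Real.exp 1 / (1 + |x.r|)) * (4 * (θ' - θ) * |x.r|)
        = (Real.pi * Real.exp 1) * (|x.r| / (1 + |x.r|)) * (4 * (θ' - θ)) := by ring
      _ ≤ 9 * 1 * (4 * (θ' - θ)) := by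
          refine mul_le_mul_of_nonneg_right ?_ (mul_nonneg (by norm_num) (by linarith))
          exact mul_le_mul pi_e h3 h4 (by norm_num)
      _ = 36 * (θ' - θ) := by ring
      _ ≤ 4 * (x.s + Dp x.r + 9) * (θ' - θ) :=
          mul_le_mul_of_nonneg_right (by linarith) (by linarith)
  have i4 : LP (fun θ => Cc (rho θ x)) (4 * (x.s + Dp x.r + 9)) (Icc (3 / 4) 1) := by
    intro θ hθ θ' hθ' hle
    have a1 : 1 / 4 ≤ θ := le_trans (by norm_num) hθ.1
    have a2 : 1 / 4 ≤ θ' := le_trans (by norm_num) hθ'.1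
    refine (diff_rho hB x (Or.inr ⟨ca3 a1, ca3 a2⟩)).trans ?_
    rw [ca3 a1, ca3 a2, cb4 hθ.1 hθ.2, cb4 hθ'.1 hθ'.2, cc3 hθ.1, cc3 hθ'.1, sub_self,
      abs_zero, mul_zero, add_zero]
    have h1 : 0 * x.s + (4 - 4 * θ) * Dp x.r - (0 * x.s + (4 - 4 * θ') * Dp x.r) =
        4 * Dp x.r * (θ' - θ) := by ring
    rw [h1, abs_of_nonneg (mul_nonneg (by positivity) (by linarith))]
    exact mul_le_mul_of_nonneg_right (by linarith) (by linarith)
  have i5 : LP (fun θ => Cc (rho θ x)) (4 * (x.s + Dp x.r + 9)) (Ici 1) := by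
    intro θ hθ θ' hθ' hle
    have h1 : rho θ x = rho θ' x := rho_eq x
      (by rw [ca3 (le_trans (by norm_num) hθ), ca3 (le_trans (by norm_num) hθ')])
      (by rw [cb5 hθ, cb5 hθ'])
      (by rw [cc3 (le_trans (by norm_num) hθ), cc3 (le_trans (by norm_num) hθ')])
    simp only [h1, sub_self, norm_zero]
    exact mul_nonneg (by positivity) (by linarith)
  exact LP.glue' ((((i0.glue (by norm_num) i1).glue (by norm_num) i2).glue (by norm_num) i3).glue
    (by norm_num) i4) i5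

theorem ccp : S_BK → S_CC := by
  intro hB
  refine ⟨cont hB, equi, ?_, ?_⟩
  · intro x
    rw [cc_page x x.j (j_spec x), norm_sgn]
    exact hB.2.2 x.s _ x.2.1
  · intro x θ θ'
    rcases le_total θ θ' with h | h
    · have h1 := lips hB x θ (mem_univ _) θ' (mem_univ _) h
      rw [abs_sub_comm, abs_of_nonneg (by linarith)]
      exact h1
    · have h1 := lips hB x θ' (mem_univ _) θ (mem_univ _) h
      rw [norm_sub_rev, abs_of_nonneg (by linarith)]
      exact h1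

end Pool.Agent.W397.CI
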